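import Pool.Agent.N167.SG.Stm
import Pool.Agent.N247.TR_Gen
import Pool.Agent.N721.TR.Psi
import Pool.Agent.N951.TR5

/-!
# Uniqueness without sign condition (SG/6)
-/

set_option autoImplicit false

namespace Pool.Agent.N157.SG

open Set Filter Topology
open Pool.Agent.N167.TR Pool.Agent.N167.SG
open Pool.Agent.N247.TR (L mem_L gen_eq)
open Pool.Agent.N721.TR (gg dd sum_gg)

variable {M : ℕ}

theorem L_succ (n : ℕ) (g : List (Fin M) → ℝ) :
    ∑ j ∈ L (n + 1), g j = ∑ i ∈ L n, ∑ k : Fin M, g (k :: i) := by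
  rw [← gen_eq, gen, gen_eq]

theorem lin3 (N : ℕ) (A W V : List (Fin M) → ℝ) :
    ∑ i ∈ L N, (2 * A i + 2 * W i + ∑ k : Fin M, V (k :: i)) =
      2 * ∑ i ∈ L N, A i + 2 * ∑ i ∈ L N, W i + ∑ j ∈ L (N + 1), V j := by
  rw [L_succ, Finset.mul_sum, Finset.mul_sum, ← Finset.sum_add_distrib, ← Finset.sum_add_distrib]

theorem L_const (n : ℕ) (c : ℝ) : ∑ _j ∈ L (M := M) n, c = (M : ℝ) ^ n * c := by
  rw [← gen_eq]
  exact (Pool.Agent.N247.TR.main M).2.2.2.2.1 n c

theorem rapid_sum {a : ℕ → ℝ} (ha : Rapid a) (h0 : ∀ n, 0 ≤ a n) (hM : 0 < M) :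
    ∃ G : ℝ, 0 ≤ G ∧ ∀ (N : ℕ) (g : List (Fin M) → ℝ), (∀ j, |g j| ≤ a j.length) →
      ∑ n ∈ Finset.range (N + 1), ∑ j ∈ L n, g j ^ 2 ≤ G := by
  have hMR : (1 : ℝ) ≤ M := by exact_mod_cast hM
  obtain ⟨C, hC⟩ := ha (2 * M) (by positivity)
  refine ⟨C ^ 2 * 2, by positivity, fun N g hg => ?_⟩
  have h1 : ∀ n, ∑ j ∈ L (M := M) n, g j ^ 2 ≤ C ^ 2 * (1 / 2 : ℝ) ^ n := by
    intro n
    calc ∑ j ∈ L (M := M) n, g j ^ 2 ≤ ∑ _j ∈ L (M := M) n, a n ^ 2 := by
          refine Finset.sum_le_sum fun j hj => ?_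
          rw [← sq_abs]
          have := hg j
          rw [(mem_L n j).1 hj] at this
          exact pow_le_pow_left₀ (abs_nonneg _) this 2
      _ = M ^ n * a n ^ 2 := L_const n _
      _ ≤ C ^ 2 * (1 / 2 : ℝ) ^ n := by
          have h2 := hC n
          have h3 : ((2 * (M : ℝ)) ^ n * a n) ^ 2 ≤ C ^ 2 :=
            pow_le_pow_left₀ (by have := h0 n; positivity) h2 2
          have h4 : (M : ℝ) ^ n * a n ^ 2 * (4 * M) ^ n = ((2 * (M : ℝ)) ^ n * a n) ^ 2 := by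
            have h5 : (4 : ℝ) ^ n = 2 ^ n * 2 ^ n := by rw [← mul_pow]; norm_num
            rw [mul_pow 4, mul_pow 2, h5]; ring
          have h6 : (2 : ℝ) ^ n ≤ (4 * M) ^ n := pow_le_pow_left₀ (by norm_num) (by linarith) n
          have h7 : (M : ℝ) ^ n * a n ^ 2 * 2 ^ n ≤ C ^ 2 := by
            refine le_trans ?_ (h4.le.trans h3)
            exact mul_le_mul_of_nonneg_left h6 (by positivity)
          rw [one_div, inv_pow, ← div_eq_mul_inv, le_div_iff₀ (by positivity)]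
          exact h7
  calc ∑ n ∈ Finset.range (N + 1), ∑ j ∈ L n, g j ^ 2
      ≤ ∑ n ∈ Finset.range (N + 1), C ^ 2 * (1 / 2 : ℝ) ^ n := Finset.sum_le_sum fun n _ => h1 n
    _ = C ^ 2 * ∑ n ∈ Finset.range (N + 1), (1 / 2 : ℝ) ^ n := by rw [Finset.mul_sum]
    _ ≤ C ^ 2 * 2 := mul_le_mul_of_nonneg_left (sum_geometric_two_le _) (sq_nonneg _)

/-- Gronwall's inequality -/
theorem gron {T κ G : ℝ} {E E' : ℝ → ℝ} (hκ : 0 ≤ κ) (hG : 0 ≤ G)
    (hd : ∀ t ∈ Icc (0 : ℝ) T, HasDerivWithinAt E (E' t) (Icc 0 T) t)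
    (hle : ∀ t ∈ Icc (0 : ℝ) T, E' t ≤ κ * E t + G) :
    ∀ t ∈ Icc (0 : ℝ) T, E t ≤ Real.exp (κ * t) * (E 0 + G * t) := by
  intro t ht
  have hT : 0 ≤ T := ht.1.trans ht.2
  have hg : ∀ s ∈ Icc (0 : ℝ) T,
      HasDerivWithinAt (fun s => G * s - Real.exp (-κ * s) * E s)
        (G - (Real.exp (-κ * s) * (-κ) * E s + Real.exp (-κ * s) * E' s)) (Icc 0 T) s := by
    intro s hs
    have h1 : HasDerivWithinAt (fun s : ℝ => G * s) G (Icc 0 T) s := by
      simpa using (hasDerivWithinAt_id s (Icc 0 T)).const_mul G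
    have h2 : HasDerivAt (fun s : ℝ => -κ * s) (-κ) s := by
      simpa using (hasDerivAt_id s).const_mul (-κ)
    exact h1.sub (h2.exp.hasDerivWithinAt.mul (hd s hs))
  have hmono : MonotoneOn (fun s => G * s - Real.exp (-κ * s) * E s) (Icc 0 T) := by
    refine monotoneOn_of_deriv_nonneg (convex_Icc 0 T) (fun s hs => (hg s hs).continuousWithinAt)
      ?_ ?_
    · rw [interior_Icc]
      intro s hs
      exact ((hg s (Ioo_subset_Icc_self hs)).hasDerivAt
        (Icc_mem_nhds hs.1 hs.2)).differentiableAt.differentiableWithinAt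
    · rw [interior_Icc]
      intro s hs
      rw [((hg s (Ioo_subset_Icc_self hs)).hasDerivAt (Icc_mem_nhds hs.1 hs.2)).deriv]
      have h1 := hle s (Ioo_subset_Icc_self hs)
      have h2 : Real.exp (-κ * s) ≤ 1 := Real.exp_le_one_iff.2 (by nlinarith [hs.1])
      have h3 := Real.exp_pos (-κ * s)
      have h4 : Real.exp (-κ * s) * (E' s - κ * E s) ≤ G := by
        calc Real.exp (-κ * s) * (E' s - κ * E s) ≤ Real.exp (-κ * s) * G :=
              mul_le_mul_of_nonneg_left (by linarith) h3.le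
          _ ≤ 1 * G := mul_le_mul_of_nonneg_right h2 hG
          _ = G := one_mul G
      have h5 : Real.exp (-κ * s) * (-κ) * E s + Real.exp (-κ * s) * E' s =
          Real.exp (-κ * s) * (E' s - κ * E s) := by ring
      rw [h5]
      linarith
  have h1 := hmono (left_mem_Icc.2 hT) ht ht.1
  simp only [mul_zero, Real.exp_zero, zero_sub, one_mul] at h1
  have h2 : Real.exp (-κ * t) * E t ≤ E 0 + G * t := by linarith
  have h3 : Real.exp (κ * t) * Real.exp (-κ * t) = 1 := by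
    rw [← Real.exp_add]; simp
  calc E t = Real.exp (κ * t) * (Real.exp (-κ * t) * E t) := by rw [← mul_assoc, h3, one_mul]
    _ ≤ Real.exp (κ * t) * (E 0 + G * t) := mul_le_mul_of_nonneg_left h2 (Real.exp_pos _).le

/-- The telescoping identity for the comparison functional, as an inequality. -/
theorem alg2 {B D ν : ℝ} (hD : 0 ≤ D) (hν : 0 ≤ ν) (f X Z : List (Fin M) → ℝ) (N : ℕ) :
    ∑ n ∈ Finset.range (N + 1), (1 / 2 : ℝ) ^ n * ∑ j ∈ L n, dd B D ν f X Z j ≤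
      ∑ n ∈ Finset.range N, (1 / 2 : ℝ) ^ n * ∑ i ∈ L n,
        (-(B ^ n * ((X i - Z i) ^ 2 * ∑ k : Fin M, (X (k :: i) + Z (k :: i))))) +
      (1 / 2 : ℝ) ^ N * ∑ i ∈ L N, -(B ^ N * gg X Z i) := by
  induction N with
  | zero =>
    rw [zero_add, Finset.sum_range_one, Finset.sum_range_zero, zero_add, pow_zero, one_mul, one_mul]
    refine Finset.sum_le_sum fun j hj => ?_
    have hj0 : j = [] := List.length_eq_zero_iff.1 ((mem_L 0 j).1 hj)
    subst hj0
    have h1 : dd B D ν f X Z [] = -gg X Z [] - 2 * ν * (X [] - Z []) ^ 2 := by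
      unfold dd rhs gg inflow
      simp only [List.length_nil, pow_zero]
      ring
    rw [h1]
    have h2 : 0 ≤ 2 * ν * (X [] - Z []) ^ 2 := by positivity
    rw [pow_zero, one_mul]
    linarith
  | succ N ih =>
    rw [Finset.sum_range_succ, Finset.sum_range_succ (fun n => (1 / 2 : ℝ) ^ n * ∑ i ∈ L n,
        (-(B ^ n * ((X i - Z i) ^ 2 * ∑ k : Fin M, (X (k :: i) + Z (k :: i)))))) N]
    have h2 : ∑ j ∈ L (N + 1), dd B D ν f X Z j ≤
        ∑ i ∈ L N, (2 * (B ^ N * gg X Z i) + 2 * (-(B ^ N * ((X i - Z i) ^ 2 *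
          ∑ k : Fin M, (X (k :: i) + Z (k :: i))))) + ∑ k : Fin M, -(B ^ (N + 1) * gg X Z (k :: i))) := by
      rw [L_succ]
      refine Finset.sum_le_sum fun i hi => ?_
      have hi' : i.length = N := (mem_L N i).1 hi
      have h1 : ∀ k : Fin M, dd B D ν f X Z (k :: i) ≤
          2 * B ^ N * (X i ^ 2 - Z i ^ 2) * (X (k :: i) - Z (k :: i)) +
            -(B ^ (N + 1) * gg X Z (k :: i)) := by
        intro k
        have h2 : dd B D ν f X Z (k :: i) = 2 * B ^ N * (X i ^ 2 - Z i ^ 2) * (X (k :: i) - Z (k :: i)) +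
            -(B ^ (N + 1) * gg X Z (k :: i)) - 2 * (ν * D ^ (N + 1)) * (X (k :: i) - Z (k :: i)) ^ 2 := by
          unfold dd rhs gg inflow
          simp only [List.length_cons, hi']
          ring
        rw [h2]
        have h3 : 0 ≤ 2 * (ν * D ^ (N + 1)) * (X (k :: i) - Z (k :: i)) ^ 2 := by positivity
        linarith
      refine (Finset.sum_le_sum fun k _ => h1 k).trans (le_of_eq ?_)
      rw [Finset.sum_add_distrib, ← Finset.mul_sum, mul_assoc (2 * B ^ N), sum_gg]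
      ring
    have h3 := mul_le_mul_of_nonneg_left h2 (by positivity : (0 : ℝ) ≤ (1 / 2 : ℝ) ^ (N + 1))
    rw [lin3 N (fun i => B ^ N * gg X Z i) (fun i => -(B ^ N * ((X i - Z i) ^ 2 *
      ∑ k : Fin M, (X (k :: i) + Z (k :: i))))) (fun j => -(B ^ (N + 1) * gg X Z j))] at h3
    have h4 : (1 / 2 : ℝ) ^ N * ∑ i ∈ L N, -(B ^ N * gg X Z i) =
        -((1 / 2 : ℝ) ^ N * ∑ i ∈ L N, B ^ N * gg X Z i) := by
      rw [Finset.sum_neg_distrib]; ring
    rw [h4] at ih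
    have h5 : (1 / 2 : ℝ) ^ (N + 1) = (1 / 2) * (1 / 2 : ℝ) ^ N := pow_succ' _ _
    rw [h5] at h3 ⊢
    linarith

/-- the energy -/
theorem energy {B D ν C G : ℝ} (hD : 0 ≤ D) (hν : 0 ≤ ν) (g z : List (Fin M) → ℝ) (N : ℕ)
    (hC : 0 ≤ C) (hz : ∀ i : List (Fin M), i.length = N → ∀ k : Fin M, -C ≤ B ^ N * z (k :: i))
    (hg : ∑ n ∈ Finset.range (N + 1), ∑ j ∈ L n, g j ^ 2 ≤ G) :
    ∑ n ∈ Finset.range (N + 1), ∑ j ∈ L n, 2 * (z j * rhs B D ν g z j) ≤
      (1 + 2 * (M * C)) * ∑ n ∈ Finset.range (N + 1), ∑ j ∈ L n, z j ^ 2 + G := by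
  have h1 := Pool.Agent.N951.TR5.tele Pool.Agent.N247.TR.main B D ν g z N
  simp only [gen_eq] at h1
  have h2 : ∑ n ∈ Finset.range (N + 1), ∑ j ∈ L n, 2 * (z j * rhs B D ν g z j) =
      2 * ∑ n ∈ Finset.range (N + 1), ∑ j ∈ L n, z j * rhs B D ν g z j := by
    simp only [Finset.mul_sum]
  rw [h2, h1]
  have h3 : 2 * ∑ n ∈ Finset.range (N + 1), (∑ j ∈ L n, z j * g j - ν * (D ^ n * ∑ j ∈ L n, z j ^ 2)) ≤
      ∑ n ∈ Finset.range (N + 1), ∑ j ∈ L n, z j ^ 2 + ∑ n ∈ Finset.range (N + 1), ∑ j ∈ L n, g j ^ 2 := by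
    rw [← Finset.sum_add_distrib, Finset.mul_sum]
    refine Finset.sum_le_sum fun n _ => ?_
    have h4 : 0 ≤ ν * (D ^ n * ∑ j ∈ L (M := M) n, z j ^ 2) := by
      have : 0 ≤ ∑ j ∈ L (M := M) n, z j ^ 2 := Finset.sum_nonneg fun j _ => sq_nonneg _
      positivity
    have h5 : 2 * ∑ j ∈ L (M := M) n, z j * g j ≤ ∑ j ∈ L (M := M) n, z j ^ 2 + ∑ j ∈ L (M := M) n, g j ^ 2 := by
      rw [← Finset.sum_add_distrib, Finset.mul_sum]
      refine Finset.sum_le_sum fun j _ => ?_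
      nlinarith [sq_nonneg (z j - g j)]
    linarith
  have h4 : -(2 * (B ^ N * ∑ j ∈ L N, z j ^ 2 * ∑ k : Fin M, z (k :: j))) ≤
      2 * (M * C) * ∑ j ∈ L (M := M) N, z j ^ 2 := by
    have h5 : ∀ j ∈ L (M := M) N, -(2 * (B ^ N * (z j ^ 2 * ∑ k : Fin M, z (k :: j)))) ≤ 2 * (M * C) * z j ^ 2 := by
      intro j hj
      have h6 : -(M * C) ≤ B ^ N * ∑ k : Fin M, z (k :: j) := by
        rw [Finset.mul_sum]
        calc -((M : ℝ) * C) = ∑ _k : Fin M, -C := by simp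
          _ ≤ _ := Finset.sum_le_sum fun k _ => hz j ((mem_L N j).1 hj) k
      have h7 := mul_le_mul_of_nonneg_right h6 (sq_nonneg (z j))
      nlinarith
    have h6 := Finset.sum_le_sum h5
    rw [← Finset.mul_sum] at h6
    refine le_trans (le_of_eq ?_) h6
    rw [Finset.sum_neg_distrib, ← Finset.mul_sum, ← Finset.mul_sum]
  have h5 : ∑ j ∈ L (M := M) N, z j ^ 2 ≤ ∑ n ∈ Finset.range (N + 1), ∑ j ∈ L n, z j ^ 2 :=
    Finset.single_le_sum (f := fun n => ∑ j ∈ L (M := M) n, z j ^ 2)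
      (fun n _ => Finset.sum_nonneg fun j _ => sq_nonneg _) (Finset.mem_range.2 (Nat.lt_succ_self N))
  have h6 : 2 * (M * C) * ∑ j ∈ L (M := M) N, z j ^ 2 ≤
      2 * (M * C) * ∑ n ∈ Finset.range (N + 1), ∑ j ∈ L n, z j ^ 2 :=
    mul_le_mul_of_nonneg_left h5 (by positivity)
  linarith

/-- the boundary term at one node -/
theorem bdry {p α β C x z x' z' : ℝ} (hp : 0 ≤ p) (hx : |x| ≤ α) (hx' : |x'| ≤ β)
    (hz : -C ≤ p * z') :
    -(p * (2 * (x - z) * (x * x' - z * z'))) ≤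
      2 * (p * α) * (α * β) + (p * α) * (z ^ 2 + z' ^ 2) + (p * α) * β * (1 + z ^ 2) + 2 * C * z ^ 2 := by
  have hα : 0 ≤ α := (abs_nonneg x).trans hx
  have hβ : 0 ≤ β := (abs_nonneg x').trans hx'
  have e1 : -(x ^ 2 * x') ≤ α * (α * β) := by
    calc -(x ^ 2 * x') ≤ |x ^ 2 * x'| := neg_le_abs _
      _ = |x| * (|x| * |x'|) := by rw [abs_mul, abs_pow]; ring
      _ ≤ α * (α * β) := by gcongr
  have e2 : 2 * (x * z * z') ≤ α * (z ^ 2 + z' ^ 2) := by
    calc 2 * (x * z * z') ≤ 2 * |x * z * z'| := by gcongr; exact le_abs_self _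
      _ = |x| * (2 * (|z| * |z'|)) := by rw [abs_mul, abs_mul]; ring
      _ ≤ α * (z ^ 2 + z' ^ 2) := by
          refine mul_le_mul hx ?_ (by positivity) hα
          have := sq_nonneg (|z| - |z'|)
          rw [← sq_abs z, ← sq_abs z']
          linarith [this, sub_sq |z| |z'|]
  have e3 : 2 * (z * x * x') ≤ α * β * (1 + z ^ 2) := by
    calc 2 * (z * x * x') ≤ 2 * |z * x * x'| := by gcongr; exact le_abs_self _
      _ = (|x| * |x'|) * (2 * |z|) := by rw [abs_mul, abs_mul]; ring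
      _ ≤ α * β * (1 + z ^ 2) := by
          refine mul_le_mul (mul_le_mul hx hx' (abs_nonneg _) hα) ?_ (by positivity) (by positivity)
          have := sq_nonneg (|z| - 1)
          rw [← sq_abs z]
          nlinarith
  have e4 : -(p * z') * z ^ 2 ≤ C * z ^ 2 := mul_le_mul_of_nonneg_right (by linarith) (sq_nonneg z)
  have e1' := mul_le_mul_of_nonneg_left e1 hp
  have e2' := mul_le_mul_of_nonneg_left e2 hp
  have e3' := mul_le_mul_of_nonneg_left e3 hp
  linarith [e1', e2', e3', e4]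

/-- the boundary terms -/
theorem bdry_sum {B C α β E K1 K2 A1 : ℝ} (hB : 0 < B) (x z : List (Fin M) → ℝ) (N : ℕ)
    (hx : ∀ j : List (Fin M), j.length = N → |x j| ≤ α)
    (hx' : ∀ j : List (Fin M), j.length = N + 1 → |x j| ≤ β) (hα : 0 ≤ α) (hβ : 0 ≤ β) (hC : 0 ≤ C)
    (hz : ∀ i : List (Fin M), i.length = N → ∀ k : Fin M, -C ≤ B ^ N * z (k :: i))
    (hE : ∑ j ∈ L N, z j ^ 2 ≤ E) (hE' : ∑ j ∈ L (N + 1), z j ^ 2 ≤ E)
    (hK1 : B ^ N * α ≤ K1) (hK2 : (B * M) ^ N * α ≤ K2) (hα1 : α ≤ A1) (hβ1 : β ≤ A1) :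
    ∑ i ∈ L N, -(B ^ N * gg x z i) ≤
      2 * (M * K2) * A1 ^ 2 + M * K2 * A1 + (M * K1 + M * (K1 * A1) + 2 * (M * C)) * E + K1 * E := by
  have hp : 0 < B ^ N := pow_pos hB N
  have hA1 : 0 ≤ A1 := hα.trans hα1
  have hK1' : 0 ≤ K1 := (by positivity : 0 ≤ B ^ N * α).trans hK1
  have hK2' : 0 ≤ K2 := (by positivity : 0 ≤ (B * M) ^ N * α).trans hK2
  have hE0 : 0 ≤ E := (Finset.sum_nonneg fun j _ => sq_nonneg (z j)).trans hE
  have h1 : ∀ i ∈ L (M := M) N, -(B ^ N * gg x z i) ≤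
      ∑ k : Fin M, (2 * (B ^ N * α) * (α * β) + (B ^ N * α) * (z i ^ 2 + z (k :: i) ^ 2) +
        (B ^ N * α) * β * (1 + z i ^ 2) + 2 * C * z i ^ 2) := by
    intro i hi
    have hi' := (mem_L N i).1 hi
    have h2 : -(B ^ N * gg x z i) =
        ∑ k : Fin M, -(B ^ N * (2 * (x i - z i) * (x i * x (k :: i) - z i * z (k :: i)))) := by
      unfold gg
      rw [Finset.sum_neg_distrib, ← Finset.mul_sum, ← Finset.mul_sum, Finset.sum_sub_distrib,
        ← Finset.mul_sum, ← Finset.mul_sum]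
    rw [h2]
    refine Finset.sum_le_sum fun k _ => ?_
    exact bdry hp.le (hx i hi') (hx' (k :: i) (by rw [List.length_cons, hi'])) (hz i hi' k)
  refine (Finset.sum_le_sum h1).trans ?_
  have h2 : ∀ i : List (Fin M), ∑ k : Fin M, (2 * (B ^ N * α) * (α * β) +
      (B ^ N * α) * (z i ^ 2 + z (k :: i) ^ 2) +
        (B ^ N * α) * β * (1 + z i ^ 2) + 2 * C * z i ^ 2) =
      M * (2 * (B ^ N * α) * (α * β) + (B ^ N * α) * β) +
        (M * (B ^ N * α) + M * ((B ^ N * α) * β) + 2 * (M * C)) * z i ^ 2 +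
        (B ^ N * α) * ∑ k : Fin M, z (k :: i) ^ 2 := by
    intro i
    have h3 : ∀ k : Fin M, 2 * (B ^ N * α) * (α * β) +
      (B ^ N * α) * (z i ^ 2 + z (k :: i) ^ 2) +
        (B ^ N * α) * β * (1 + z i ^ 2) + 2 * C * z i ^ 2 =
        (2 * (B ^ N * α) * (α * β) + (B ^ N * α) * z i ^ 2 + (B ^ N * α) * β * (1 + z i ^ 2) +
          2 * C * z i ^ 2) + (B ^ N * α) * z (k :: i) ^ 2 := fun k => by ring
    rw [Finset.sum_congr rfl fun k _ => h3 k, Finset.sum_add_distrib, Finset.sum_const,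
      Finset.card_univ, Fintype.card_fin, nsmul_eq_mul, ← Finset.mul_sum]
    ring
  rw [Finset.sum_congr rfl fun i _ => h2 i, Finset.sum_add_distrib, Finset.sum_add_distrib,
    L_const, ← Finset.mul_sum, ← Finset.mul_sum, ← L_succ N (fun j => z j ^ 2)]
  have e1 : (M : ℝ) ^ N * (M * (2 * (B ^ N * α) * (α * β) + (B ^ N * α) * β)) ≤
      2 * (M * K2) * A1 ^ 2 + M * K2 * A1 := by
    have h3 : (M : ℝ) ^ N * (M * (2 * (B ^ N * α) * (α * β) + (B ^ N * α) * β)) =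
        2 * (M * ((B * M) ^ N * α)) * (α * β) + M * ((B * M) ^ N * α) * β := by
      rw [mul_pow]; ring
    rw [h3]
    have h4 : α * β ≤ A1 ^ 2 := by
      rw [pow_two]
      exact mul_le_mul hα1 hβ1 hβ hA1
    have h5 : (M : ℝ) * ((B * M) ^ N * α) ≤ M * K2 := mul_le_mul_of_nonneg_left hK2 (by positivity)
    have h6 : 2 * ((M : ℝ) * ((B * M) ^ N * α)) * (α * β) ≤ 2 * (M * K2) * A1 ^ 2 :=
      mul_le_mul (by linarith) h4 (by positivity) (by positivity)
    have h7 : (M : ℝ) * ((B * M) ^ N * α) * β ≤ M * K2 * A1 :=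
      mul_le_mul h5 hβ1 hβ (by positivity)
    linarith
  have e2 : ((M : ℝ) * (B ^ N * α) + M * ((B ^ N * α) * β) + 2 * (M * C)) * ∑ i ∈ L (M := M) N, z i ^ 2 ≤
      (M * K1 + M * (K1 * A1) + 2 * (M * C)) * E := by
    refine mul_le_mul ?_ hE (Finset.sum_nonneg fun j _ => sq_nonneg _) (by positivity)
    have h3 : (M : ℝ) * (B ^ N * α) ≤ M * K1 := mul_le_mul_of_nonneg_left hK1 (by positivity)
    have h4 : (M : ℝ) * ((B ^ N * α) * β) ≤ M * (K1 * A1) :=
      mul_le_mul_of_nonneg_left (mul_le_mul hK1 hβ1 hβ hK1') (by positivity)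
    linarith
  have e3 : (B ^ N * α) * ∑ j ∈ L (M := M) (N + 1), z j ^ 2 ≤ K1 * E :=
    mul_le_mul hK1 hE' (Finset.sum_nonneg fun j _ => sq_nonneg _) hK1'
  linarith

theorem uniq2 : S_uniq2 := by
  intro M B D ν F a f x X Z hM hB hD hν hF hf hX ha hXa hZ hZC j₀ t₀ ht₀
  have hD0 : 0 ≤ D := by linarith
  have hlen : ∀ n : ℕ, ∃ j : List (Fin M), j.length = n := fun n => ⟨List.replicate n ⟨0, hM⟩, by simp⟩
  have ha0 : ∀ n, 0 ≤ a n := by
    intro n
    obtain ⟨j, hj⟩ := hlen n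
    have := hXa j 0 le_rfl
    rw [hj] at this
    exact (abs_nonneg _).trans this
  have hF0 : ∀ n, 0 ≤ F n := by
    intro n
    obtain ⟨j, hj⟩ := hlen n
    have := hf j 0 le_rfl
    rw [hj] at this
    exact (abs_nonneg _).trans this
  set T := t₀ with hT
  obtain ⟨C₀, hC₀⟩ := hZC T
  set C : ℝ := max C₀ 0 with hCdef
  have hC0 : 0 ≤ C := le_max_right _ _
  have hC : ∀ (j : List (Fin M)) (k : Fin M), ∀ t ∈ Icc (0 : ℝ) T, -C ≤ B ^ j.length * Z (k :: j) t :=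
    fun j k t ht => (neg_le_neg (le_max_left _ _)).trans (hC₀ j k t ht)
  obtain ⟨G, hG0, hG⟩ := rapid_sum (M := M) hF hF0 hM
  obtain ⟨A2, hA20, hA2⟩ := rapid_sum (M := M) ha ha0 hM
  have hderZ : ∀ j, ∀ t ∈ Icc (0 : ℝ) T,
      HasDerivWithinAt (Z j) (rhs B D ν (fun i => f i t) (fun i => Z i t) j) (Icc 0 T) t :=
    fun j t ht => (hZ.2 j t ht.1).mono Icc_subset_Ici_self
  have hderX : ∀ j, ∀ t ∈ Icc (0 : ℝ) T,
      HasDerivWithinAt (X j) (rhs B D ν (fun i => f i t) (fun i => X i t) j) (Icc 0 T) t :=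
    fun j t ht => (hX.2 j t ht.1).mono Icc_subset_Ici_self
  -- the energy of `Z`
  set κ₁ : ℝ := 1 + 2 * (M * C) with hκ₁
  have hκ₁0 : 0 ≤ κ₁ := by positivity
  set E : ℝ := Real.exp (κ₁ * T) * (A2 + G * T) with hE
  have hEZ : ∀ N : ℕ, ∀ t ∈ Icc (0 : ℝ) T, ∑ n ∈ Finset.range (N + 1), ∑ j ∈ L (M := M) n, Z j t ^ 2 ≤ E := by
    intro N t ht
    have h1 := gron (T := T) (κ := κ₁) (G := G)
      (E := fun t => ∑ n ∈ Finset.range (N + 1), ∑ j ∈ L (M := M) n, Z j t ^ 2)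
      (E' := fun t => ∑ n ∈ Finset.range (N + 1), ∑ j ∈ L (M := M) n,
        2 * (Z j t * rhs B D ν (fun i => f i t) (fun i => Z i t) j)) hκ₁0 hG0
      (fun s hs => by
        refine HasDerivWithinAt.fun_sum fun n _ => HasDerivWithinAt.fun_sum fun j _ => ?_
        refine ((hderZ j s hs).fun_pow 2).congr_deriv ?_
        push_cast
        ring)
      (fun s hs => energy hD0 hν.le _ _ N hC0 (fun i hi k => by
        have := hC i k s hs
        rw [hi] at this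
        exact this) (hG N _ fun j => hf j s hs.1)) t ht
    refine h1.trans ?_
    have h2 : ∑ n ∈ Finset.range (N + 1), ∑ j ∈ L (M := M) n, Z j 0 ^ 2 ≤ A2 := by
      refine hA2 N (fun j => Z j 0) fun j => ?_
      rw [hZ.1 j, ← hX.1 j]
      exact hXa j 0 le_rfl
    have h3 : Real.exp (κ₁ * t) ≤ Real.exp (κ₁ * T) :=
      Real.exp_le_exp.2 (mul_le_mul_of_nonneg_left ht.2 hκ₁0)
    have h4 : G * t ≤ G * T := mul_le_mul_of_nonneg_left ht.2 hG0
    have h5 : 0 ≤ ∑ n ∈ Finset.range (N + 1), ∑ j ∈ L (M := M) n, Z j 0 ^ 2 :=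
      Finset.sum_nonneg fun n _ => Finset.sum_nonneg fun j _ => sq_nonneg _
    have h6 : 0 ≤ G * t := mul_nonneg hG0 ht.1
    exact mul_le_mul h3 (add_le_add h2 h4) (by positivity) (Real.exp_pos _).le
  have hEZ' : ∀ N : ℕ, ∀ t ∈ Icc (0 : ℝ) T, ∑ j ∈ L (M := M) N, Z j t ^ 2 ≤ E := by
    intro N t ht
    refine le_trans ?_ (hEZ N t ht)
    exact Finset.single_le_sum (f := fun n => ∑ j ∈ L (M := M) n, Z j t ^ 2)
      (fun n _ => Finset.sum_nonneg fun j _ => sq_nonneg _) (Finset.mem_range.2 (Nat.lt_succ_self N))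
  have hE0 : 0 ≤ E := (Finset.sum_nonneg fun j _ => sq_nonneg (Z j 0)).trans
    (hEZ' 0 0 ⟨le_rfl, ht₀⟩)
  -- constants
  obtain ⟨K1, hK1⟩ := ha B hB
  have hMR : (0 : ℝ) < M := by exact_mod_cast hM
  obtain ⟨K2, hK2⟩ := ha (B * M) (by positivity)
  obtain ⟨A1, hA1⟩ := ha 1 one_pos
  have hA1' : ∀ n, a n ≤ A1 := fun n => by simpa using hA1 n
  have hA10 : 0 ≤ A1 := (ha0 0).trans (hA1' 0)
  have hK10 : 0 ≤ K1 := by
    have := hK1 0
    rw [pow_zero, one_mul] at this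
    exact (ha0 0).trans this
  have hK20 : 0 ≤ K2 := by
    have := hK2 0
    rw [pow_zero, one_mul] at this
    exact (ha0 0).trans this
  set C1 : ℝ := K1 / B + C with hC1
  have hC10 : 0 ≤ C1 := by positivity
  set κ₂ : ℝ := M * C1 with hκ₂
  have hκ₂0 : 0 ≤ κ₂ := by positivity
  set K3 : ℝ := 2 * (M * K2) * A1 ^ 2 + M * K2 * A1 +
    (M * K1 + M * (K1 * A1) + 2 * (M * C)) * E + K1 * E with hK3
  have hK30 : 0 ≤ K3 := by positivity
  -- the comparison
  have hψ : ∀ N : ℕ, ∀ t ∈ Icc (0 : ℝ) T, ∑ n ∈ Finset.range (N + 1), (1 / 2 : ℝ) ^ n *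
      ∑ j ∈ L (M := M) n, (X j t - Z j t) ^ 2 ≤ Real.exp (κ₂ * t) * ((1 / 2) ^ N * K3 * t) := by
    intro N t ht
    have h1 := gron (T := T) (κ := κ₂) (G := (1 / 2) ^ N * K3)
      (E := fun t => ∑ n ∈ Finset.range (N + 1), (1 / 2 : ℝ) ^ n *
        ∑ j ∈ L (M := M) n, (X j t - Z j t) ^ 2)
      (E' := fun t => ∑ n ∈ Finset.range (N + 1), (1 / 2 : ℝ) ^ n * ∑ j ∈ L (M := M) n,
        dd B D ν (fun i => f i t) (fun i => X i t) (fun i => Z i t) j) hκ₂0 (by positivity)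
      (fun s hs => by
        refine HasDerivWithinAt.fun_sum fun n _ => HasDerivWithinAt.const_mul _
          (HasDerivWithinAt.fun_sum fun j _ => ?_)
        have h1 := ((hderX j s hs).fun_sub (hderZ j s hs)).fun_pow 2
        refine h1.congr_deriv ?_
        unfold dd
        norm_num)
      (fun s hs => ?_) t ht
    · have h2 : ∑ n ∈ Finset.range (N + 1), (1 / 2 : ℝ) ^ n *
          ∑ j ∈ L (M := M) n, (X j 0 - Z j 0) ^ 2 = 0 := by
        refine Finset.sum_eq_zero fun n _ => ?_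
        rw [Finset.sum_eq_zero fun j _ => ?_, mul_zero]
        rw [hX.1 j, hZ.1 j, sub_self]
        norm_num
      rw [h2, zero_add] at h1
      exact h1
    · refine (alg2 hD0 hν.le _ _ _ N).trans (add_le_add ?_ ?_)
      · have h2 : ∀ n ∈ Finset.range N, (1 / 2 : ℝ) ^ n * ∑ i ∈ L (M := M) n,
            (-(B ^ n * ((X i s - Z i s) ^ 2 * ∑ k : Fin M, (X (k :: i) s + Z (k :: i) s)))) ≤
            κ₂ * ((1 / 2 : ℝ) ^ n * ∑ i ∈ L (M := M) n, (X i s - Z i s) ^ 2) := by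
          intro n _
          have h3 : ∑ i ∈ L (M := M) n,
              (-(B ^ n * ((X i s - Z i s) ^ 2 * ∑ k : Fin M, (X (k :: i) s + Z (k :: i) s)))) ≤
              κ₂ * ∑ i ∈ L (M := M) n, (X i s - Z i s) ^ 2 := by
            rw [Finset.mul_sum]
            refine Finset.sum_le_sum fun i hi => ?_
            have hi' := (mem_L n i).1 hi
            have h4 : -κ₂ ≤ B ^ n * ∑ k : Fin M, (X (k :: i) s + Z (k :: i) s) := by
              rw [Finset.mul_sum]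
              calc -κ₂ = ∑ _k : Fin M, -C1 := by rw [hκ₂]; simp
                _ ≤ _ := Finset.sum_le_sum fun k _ => ?_
              have h5 := hC i k s hs
              rw [hi'] at h5
              have h6 := hXa (k :: i) s hs.1
              rw [List.length_cons, hi'] at h6
              have h7 := hK1 (n + 1)
              have h8 : B ^ n * a (n + 1) ≤ K1 / B := by
                rw [le_div_iff₀ hB]
                calc B ^ n * a (n + 1) * B = B ^ (n + 1) * a (n + 1) := by rw [pow_succ]; ring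
                  _ ≤ K1 := h7
              have h9 : -(B ^ n * a (n + 1)) ≤ B ^ n * X (k :: i) s := by
                rw [← mul_neg]
                exact mul_le_mul_of_nonneg_left (abs_le.1 h6).1 (pow_nonneg hB.le n)
              rw [mul_add]
              linarith
            have h5 := mul_le_mul_of_nonneg_right h4 (sq_nonneg (X i s - Z i s))
            linarith
          calc _ ≤ (1 / 2 : ℝ) ^ n * (κ₂ * ∑ i ∈ L (M := M) n, (X i s - Z i s) ^ 2) :=
                mul_le_mul_of_nonneg_left h3 (by positivity)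
            _ = _ := by ring
        refine (Finset.sum_le_sum h2).trans ?_
        rw [← Finset.mul_sum]
        refine mul_le_mul_of_nonneg_left ?_ hκ₂0
        exact Finset.sum_le_sum_of_subset_of_nonneg
          (Finset.range_subset_range.2 (Nat.le_succ N))
          fun n _ _ => mul_nonneg (by positivity) (Finset.sum_nonneg fun j _ => sq_nonneg _)
      · refine mul_le_mul_of_nonneg_left ?_ (by positivity)
        exact bdry_sum hB (fun i => X i s) (fun i => Z i s) N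
          (α := a N) (β := a (N + 1)) (C := C) (E := E)
          (fun j hj => by have := hXa j s hs.1; rw [hj] at this; exact this)
          (fun j hj => by have := hXa j s hs.1; rw [hj] at this; exact this)
          (ha0 _) (ha0 _) hC0
          (fun i hi k => by have := hC i k s hs; rw [hi] at this; exact this)
          (hEZ' N s hs) (hEZ' (N + 1) s hs) (hK1 N) (hK2 N) (hA1' _) (hA1' _)
  -- conclusion
  have hTm : T ∈ Icc (0 : ℝ) T := ⟨ht₀, le_rfl⟩
  have hsq : (1 / 2 : ℝ) ^ j₀.length * (X j₀ T - Z j₀ T) ^ 2 ≤ 0 := by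
    have hlim : Tendsto (fun N : ℕ => Real.exp (κ₂ * T) * ((1 / 2 : ℝ) ^ N * K3 * T)) atTop (𝓝 0) := by
      have h1 : Tendsto (fun N : ℕ => (1 / 2 : ℝ) ^ N) atTop (𝓝 0) :=
        tendsto_pow_atTop_nhds_zero_of_lt_one (by norm_num) (by norm_num)
      have h2 := ((h1.mul_const K3).mul_const T).const_mul (Real.exp (κ₂ * T))
      simpa using h2
    refine ge_of_tendsto hlim (eventually_atTop.2 ⟨j₀.length, fun N hN => ?_⟩)
    refine le_trans ?_ (hψ N T hTm)
    have h1 : (1 / 2 : ℝ) ^ j₀.length * (X j₀ T - Z j₀ T) ^ 2 ≤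
        (1 / 2 : ℝ) ^ j₀.length * ∑ j ∈ L (M := M) j₀.length, (X j T - Z j T) ^ 2 :=
      mul_le_mul_of_nonneg_left (Finset.single_le_sum (f := fun j => (X j T - Z j T) ^ 2)
        (fun j _ => sq_nonneg _) ((mem_L _ j₀).2 rfl)) (by positivity)
    refine h1.trans ?_
    exact Finset.single_le_sum (f := fun n => (1 / 2 : ℝ) ^ n * ∑ j ∈ L (M := M) n, (X j T - Z j T) ^ 2)
      (fun n _ => mul_nonneg (by positivity) (Finset.sum_nonneg fun j _ => sq_nonneg _))
      (Finset.mem_range.2 (Nat.lt_succ_of_le hN))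
  have h1 : (0 : ℝ) < (1 / 2 : ℝ) ^ j₀.length := by positivity
  have h2 : (X j₀ T - Z j₀ T) ^ 2 ≤ 0 := by
    by_contra hcon
    push Not at hcon
    have := mul_pos h1 hcon
    linarith
  have h3 : X j₀ T - Z j₀ T = 0 := pow_eq_zero_iff (two_ne_zero) |>.1 (le_antisymm h2 (sq_nonneg _))
  linarith

end Pool.Agent.N157.SG
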